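import Pool.Agent.H927.QP.St

/-!
# `kappa : S_syz → S_kappa` (helper287, for helper927)
-/

set_option autoImplicit false

open scoped TensorProduct commutatorElement

noncomputable section

namespace Pool.Agent.H927.QP.Part_kappa

open Pool.Agent.H297.QL (Gr gam cl gbr comp hc LV inc lift)

attribute [local instance 100] LieRing.ofAssociativeRing

/-! ### The derivation `del` -/

theorem hat_coeff_zero (R : Type) [CommRing R] (k l : Fin 3) (a : FA R) :
    (hat R k l a).coeff 0 = a := by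
  refine indA R (p := fun a => (hat R k l a).coeff 0 = a) ?_ ?_ ?_ ?_ a
  · intro r
    rw [AlgHom.commutes, Polynomial.algebraMap_apply, Polynomial.coeff_C_zero]
  · intro c
    unfold hat
    rw [liftA_x]
    by_cases h : c = k
    · rw [if_pos h, h]
      simp [Polynomial.coeff_sub, Polynomial.coeff_add]
    · rw [if_neg h, Polynomial.coeff_C_zero]
  · intro a b ha hb
    rw [map_add, Polynomial.coeff_add, ha, hb]
  · intro a b ha hb
    rw [map_mul, Polynomial.mul_coeff_zero, ha, hb]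

theorem del_algebraMap (R : Type) [CommRing R] (k l : Fin 3) (r : R) :
    del R k l (algebraMap R (FA R) r) = 0 := by
  change (hat R k l (algebraMap R (FA R) r)).coeff 1 = 0
  rw [AlgHom.commutes, Polynomial.algebraMap_apply, Polynomial.coeff_C]
  simp

theorem del_x (R : Type) [CommRing R] (k l c : Fin 3) :
    del R k l (x R c) = if c = k then x R l * x R k - x R k * x R l else 0 := by
  change (hat R k l (x R c)).coeff 1 = _
  unfold hat
  rw [liftA_x]
  by_cases h : c = k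
  · rw [if_pos h, if_pos h]
    simp only [Polynomial.coeff_sub, Polynomial.coeff_add, Polynomial.coeff_C, one_ne_zero,
      if_false, zero_add]
    have h1 : (Polynomial.X * Polynomial.C (x R l * x R k - x R k * x R l)).coeff 1 =
        x R l * x R k - x R k * x R l := by
      rw [show (1 : ℕ) = 0 + 1 from rfl, Polynomial.coeff_X_mul, Polynomial.coeff_C_zero]
    have h2 : (Polynomial.X ^ 2 * Polynomial.C
        ((x R l * x R k - x R k * x R l) * x R l)).coeff 1 = 0 := by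
      rw [Polynomial.coeff_mul_C, Polynomial.coeff_X_pow]
      simp
    rw [h1, h2, sub_zero]
  · rw [if_neg h, if_neg h, Polynomial.coeff_C]
    simp

theorem del_mul (R : Type) [CommRing R] (k l : Fin 3) (a b : FA R) :
    del R k l (a * b) = del R k l a * b + a * del R k l b := by
  change (hat R k l (a * b)).coeff 1 = (hat R k l a).coeff 1 * b + a * (hat R k l b).coeff 1
  rw [map_mul, Polynomial.coeff_mul, Finset.Nat.antidiagonal_succ]
  simp [hat_coeff_zero, add_comm]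

section lie

variable {R : Type} [CommRing R] {L : Type} [LieRing L] [LieAlgebra R L]

/-- the adjoint map -/
def adm (R : Type) [CommRing R] {L : Type} [LieRing L] [LieAlgebra R L] (v : L) :
    Module.End R L where
  toFun w := ⁅v, w⁆
  map_add' := lie_add v
  map_smul' r w := lie_smul r v w

theorem adm_apply (v w : L) : adm R v w = ⁅v, w⁆ := rfl

/-- the action of the free algebra -/
def rho (X : Fin 3 → L) : FA R →ₐ[R] Module.End R L := liftA R (fun l => adm R (X l))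

theorem rho_x (X : Fin 3 → L) (c : Fin 3) (v : L) : rho X (x R c) v = ⁅X c, v⁆ := by
  unfold rho
  rw [liftA_x, adm_apply]

theorem rho_scalar (X : Fin 3 → L) (r : R) (v : L) :
    rho X (algebraMap R (FA R) r) v = r • v := by
  rw [AlgHom.commutes, Module.algebraMap_end_apply]

theorem rho_mul (X : Fin 3 → L) (a b : FA R) (v : L) : rho X (a * b) v = rho X a (rho X b v) := by
  rw [map_mul, Module.End.mul_apply]

theorem rho_add (X : Fin 3 → L) (a b : FA R) (v : L) :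
    rho X (a + b) v = rho X a v + rho X b v := by
  rw [map_add, LinearMap.add_apply]

theorem rho_zsmul (X : Fin 3 → L) (r : ℤ) (a : FA R) (v : L) :
    rho X (r • a) v = r • rho X a v := by
  rw [map_zsmul, LinearMap.smul_apply]

/-- a derivation of `L` -/
theorem der (X : Fin 3 → L) (k l : Fin 3) (u : L) (hk : ⁅u, X k⁆ = ⁅X l, X k⁆)
    (hne : ∀ m, m ≠ k → ⁅u, X m⁆ = 0) (a : FA R) :
    ∀ v : L, ⁅u, rho X a v⁆ = rho X (del R k l a) v + rho X a ⁅u, v⁆ := by
  refine indA R (p := fun a => ∀ v : L,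
    ⁅u, rho X a v⁆ = rho X (del R k l a) v + rho X a ⁅u, v⁆) ?_ ?_ ?_ ?_ a
  · intro r v
    rw [rho_scalar, del_algebraMap, map_zero, LinearMap.zero_apply, zero_add, rho_scalar, lie_smul]
  · intro c v
    rw [rho_x, rho_x, del_x, leibniz_lie]
    by_cases h : c = k
    · rw [if_pos h, h, hk, map_sub, LinearMap.sub_apply, rho_mul, rho_mul, rho_x, rho_x, rho_x,
        rho_x, lie_lie]
    · rw [if_neg h, hne c h, map_zero, LinearMap.zero_apply, zero_lie]
  · intro a b ha hb v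
    rw [rho_add, lie_add, ha, hb, map_add, rho_add, rho_add]
    abel
  · intro a b ha hb v
    rw [rho_mul, ha, hb, map_add (rho X a), del_mul, rho_add, rho_mul, rho_mul, rho_mul]
    abel

/-- stability of `Z` -/
theorem rho_mem (X : Fin 3 → L) (Z : Submodule R L) (hZ : ∀ l, ∀ b ∈ Z, ⁅X l, b⁆ ∈ Z)
    (a : FA R) : ∀ b ∈ Z, rho X a b ∈ Z := by
  refine indA R (p := fun a => ∀ b ∈ Z, rho X a b ∈ Z) ?_ ?_ ?_ ?_ a
  · intro r b hb
    rw [rho_scalar]
    exact Z.smul_mem r hb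
  · intro c b hb
    rw [rho_x]
    exact hZ c b hb
  · intro a a' ha ha' b hb
    rw [rho_add]
    exact Z.add_mem (ha b hb) (ha' b hb)
  · intro a a' ha ha' b hb
    rw [rho_mul]
    exact ha _ (ha' b hb)

/-- the annihilator of `Z` -/
theorem rho_ann (X : Fin 3 → L) (Z : Submodule R L) (hZ : ∀ l, ∀ b ∈ Z, ⁅X l, b⁆ ∈ Z)
    (a : FA R) : ∀ v : L, (∀ b ∈ Z, ⁅v, b⁆ = 0) → ∀ b ∈ Z, ⁅rho X a v, b⁆ = 0 := by
  refine indA R (p := fun a => ∀ v : L, (∀ b ∈ Z, ⁅v, b⁆ = 0) → ∀ b ∈ Z, ⁅rho X a v, b⁆ = 0)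
    ?_ ?_ ?_ ?_ a
  · intro r v hv b hb
    rw [rho_scalar, smul_lie, hv b hb, smul_zero]
  · intro c v hv b hb
    rw [rho_x, lie_lie, hv b hb, hv _ (hZ c b hb), lie_zero, sub_zero]
  · intro a a' ha ha' v hv b hb
    rw [rho_add, add_lie, ha v hv b hb, ha' v hv b hb, add_zero]
  · intro a a' ha ha' v hv b hb
    rw [rho_mul]
    exact ha _ (ha' v hv) b hb

/-- the map on `M` -/
def kap (X : Fin 3 → L) (ζ : Fin 2 → L) : M R →ₗ[R] L where
  toFun m := rho X (m 0) (ζ 0) + rho X (m 1) (ζ 1)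
  map_add' m m' := by
    rw [Pi.add_apply, Pi.add_apply, rho_add, rho_add]
    abel
  map_smul' r m := by
    simp only [Pi.smul_apply, map_smul, LinearMap.smul_apply, RingHom.id_apply, smul_add]

theorem kap_apply (X : Fin 3 → L) (ζ : Fin 2 → L) (m : M R) :
    kap X ζ m = rho X (m 0) (ζ 0) + rho X (m 1) (ζ 1) := rfl

/-- compatibility of `kap` with the operators -/
theorem kap_D (X : Fin 3 → L) (ζ : Fin 2 → L) (Z : Submodule R L)
    (hZ : ∀ l, ∀ b ∈ Z, ⁅X l, b⁆ ∈ Z) (k l : Fin 3) (u : L) (hk : ⁅u, X k⁆ = ⁅X l, X k⁆)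
    (hne : ∀ m, m ≠ k → ⁅u, X m⁆ = 0)
    (hu : ∀ i : Fin 2, ⁅u, ζ i⁆ - aco k l i • ⁅X l, bco k 0 • ζ 0 + bco k 1 • ζ 1⁆ ∈ Z)
    (m : M R) : ⁅u, kap X ζ m⁆ - kap X ζ (D R k l m) ∈ Z := by
  have e0 : ∀ j, D R k l m j = del R k l (m j) +
      bco k j • ((aco k l 0 • m 0 + aco k l 1 • m 1) * x R l) := fun j => rfl
  have key : ⁅u, kap X ζ m⁆ - kap X ζ (D R k l m) =
      rho X (m 0) (⁅u, ζ 0⁆ - aco k l 0 • ⁅X l, bco k 0 • ζ 0 + bco k 1 • ζ 1⁆) +
      rho X (m 1) (⁅u, ζ 1⁆ - aco k l 1 • ⁅X l, bco k 0 • ζ 0 + bco k 1 • ζ 1⁆) := by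
    rw [kap_apply, kap_apply, lie_add, der X k l u hk hne, der X k l u hk hne, e0, e0, rho_add,
      rho_add, rho_zsmul, rho_zsmul, rho_mul, rho_mul, rho_x, rho_x, rho_add, rho_add, rho_zsmul,
      rho_zsmul, rho_zsmul, rho_zsmul]
    simp only [map_sub, lie_add, lie_zsmul, map_add, map_zsmul, smul_add]
    rw [smul_comm (bco k 0) (aco k l 0), smul_comm (bco k 0) (aco k l 1),
      smul_comm (bco k 1) (aco k l 0), smul_comm (bco k 1) (aco k l 1)]
    abel
  rw [key]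
  exact Z.add_mem (rho_mem X Z hZ _ _ (hu 0)) (rho_mem X Z hZ _ _ (hu 1))

/-- `Z` is annihilated -/
theorem kap_ann (X : Fin 3 → L) (ζ : Fin 2 → L) (Z : Submodule R L)
    (hZ : ∀ l, ∀ b ∈ Z, ⁅X l, b⁆ ∈ Z) (h7 : ∀ i : Fin 2, ∀ b ∈ Z, ⁅ζ i, b⁆ = 0) (m : M R)
    (b : L) (hb : b ∈ Z) : ⁅kap X ζ m, b⁆ = 0 := by
  rw [kap_apply, add_lie, rho_ann X Z hZ _ _ (h7 0) b hb, rho_ann X Z hZ _ _ (h7 1) b hb, add_zero]

/-- the basis of `M` -/
def B (R : Type) [CommRing R] : Module.Basis (Σ _ : Fin 2, FreeMonoid (Fin 3)) R (M R) :=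
  Pi.basis (fun _ => bas R)

/-- the bracket as a bilinear map -/
def bra (f : M R →ₗ[R] L) : M R →ₗ[R] M R →ₗ[R] L :=
  LinearMap.mk₂ R (fun m m' => ⁅f m, f m'⁆)
    (fun m₁ m₂ m' => by rw [map_add, add_lie])
    (fun r m m' => by rw [map_smul, smul_lie])
    (fun m m₁ m₂ => by rw [map_add, lie_add])
    (fun r m m' => by rw [map_smul, lie_smul])

theorem bra_apply (f : M R →ₗ[R] L) (m m' : M R) : bra f m m' = ⁅f m, f m'⁆ := rfl

open Classical in
/-- half of the bracket -/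
def bet (f : M R →ₗ[R] L) : M R →ₗ[R] M R →ₗ[R] L :=
  (B R).constr R fun s => (B R).constr R fun t =>
    if WellOrderingRel s t then ⁅f (B R s), f (B R t)⁆ else 0

open Classical in
theorem bet_basis (f : M R →ₗ[R] L) (s t : Σ _ : Fin 2, FreeMonoid (Fin 3)) :
    bet f (B R s) (B R t) = if WellOrderingRel s t then ⁅f (B R s), f (B R t)⁆ else 0 := by
  unfold bet
  rw [Module.Basis.constr_basis, Module.Basis.constr_basis]

theorem bet_sub (f : M R →ₗ[R] L) (m m' : M R) : bet f m m' - bet f m' m = ⁅f m, f m'⁆ := by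
  have h : bet f - (bet f).flip = bra f := by
    refine (B R).ext fun s => (B R).ext fun t => ?_
    rw [LinearMap.sub_apply, LinearMap.sub_apply, LinearMap.flip_apply, bra_apply, bet_basis,
      bet_basis]
    rcases trichotomous_of (WellOrderingRel (α := Σ _ : Fin 2, FreeMonoid (Fin 3))) s t with
      h | h | h
    · rw [if_pos h, if_neg (asymm_of WellOrderingRel h), sub_zero]
    · rw [h, sub_self, lie_self]
    · rw [if_neg (asymm_of WellOrderingRel h), if_pos h, zero_sub, lie_skew]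
  have h2 := LinearMap.congr_fun (LinearMap.congr_fun h m) m'
  rw [LinearMap.sub_apply, LinearMap.sub_apply, LinearMap.flip_apply, bra_apply] at h2
  exact h2

/-- the map on the tensor square -/
def kt (f : M R →ₗ[R] L) : T R →ₗ[R] L := TensorProduct.lift (bet f)

theorem kt_alt (f : M R →ₗ[R] L) (m m' : M R) :
    kt f (m ⊗ₜ[R] m' - m' ⊗ₜ[R] m) = ⁅f m, f m'⁆ := by
  unfold kt
  rw [map_sub, TensorProduct.lift.tmul, TensorProduct.lift.tmul, bet_sub]

/-- antisymmetric tensors -/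
def Alt (R : Type) [CommRing R] : AddSubgroup (T R) :=
  AddSubgroup.closure {t | ∃ m m' : M R, t = m ⊗ₜ[R] m' - m' ⊗ₜ[R] m}

theorem mem_Alt (m m' : M R) : m ⊗ₜ[R] m' - m' ⊗ₜ[R] m ∈ Alt R :=
  AddSubgroup.subset_closure ⟨m, m', rfl⟩

theorem D2_gen (k l : Fin 3) (m m' : M R) :
    D2 R k l (m ⊗ₜ[R] m' - m' ⊗ₜ[R] m) =
      (D R k l m ⊗ₜ[R] m' - m' ⊗ₜ[R] D R k l m) + (m ⊗ₜ[R] D R k l m' - D R k l m' ⊗ₜ[R] m) := by
  unfold D2
  rw [LinearMap.add_apply, map_sub, map_sub, TensorProduct.map_tmul, TensorProduct.map_tmul,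
    TensorProduct.map_tmul, TensorProduct.map_tmul, LinearMap.id_apply, LinearMap.id_apply]
  abel

theorem step (f : M R →ₗ[R] L) (Z : Submodule R L) (k l : Fin 3) (u : L)
    (hD : ∀ m, ⁅u, f m⁆ - f (D R k l m) ∈ Z) (hA : ∀ m, ∀ b ∈ Z, ⁅f m, b⁆ = 0) (τ : T R)
    (hτ : τ ∈ Alt R) : D2 R k l τ ∈ Alt R ∧ kt f (D2 R k l τ) = ⁅u, kt f τ⁆ := by
  unfold Alt at hτ
  refine AddSubgroup.closure_induction
    (p := fun τ _ => D2 R k l τ ∈ Alt R ∧ kt f (D2 R k l τ) = ⁅u, kt f τ⁆) ?_ ?_ ?_ ?_ hτ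
  · rintro _ ⟨m, m', rfl⟩
    rw [D2_gen]
    refine ⟨(Alt R).add_mem (mem_Alt _ _) (mem_Alt _ _), ?_⟩
    rw [map_add, kt_alt, kt_alt, kt_alt, leibniz_lie]
    have h1 : ⁅⁅u, f m⁆, f m'⁆ = ⁅f (D R k l m), f m'⁆ := by
      have h := hA m' _ (hD m)
      rw [← lie_skew, neg_eq_zero, sub_lie, sub_eq_zero] at h
      exact h
    have h2 : ⁅f m, ⁅u, f m'⁆⁆ = ⁅f m, f (D R k l m')⁆ := by
      have h := hA m _ (hD m')
      rw [lie_sub, sub_eq_zero] at h
      exact h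
    rw [h1, h2]
  · refine ⟨?_, ?_⟩
    · rw [map_zero]
      exact (Alt R).zero_mem
    · rw [map_zero, map_zero, lie_zero]
  · rintro a b _ _ ⟨ha1, ha2⟩ ⟨hb1, hb2⟩
    refine ⟨?_, ?_⟩
    · rw [map_add]
      exact (Alt R).add_mem ha1 hb1
    · rw [map_add, map_add, ha2, hb2, map_add, lie_add]
  · rintro a _ ⟨ha1, ha2⟩
    refine ⟨?_, ?_⟩
    · rw [map_neg]
      exact (Alt R).neg_mem ha1
    · rw [map_neg, map_neg, ha2, map_neg, lie_neg]

theorem fin_sum {V W : Type} [AddCommGroup V] [AddCommGroup W]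
    (f : V →+ W) (a : List (Fin 3) → V) (b : List (Fin 3) → W) (hab : ∀ w, f (a w) = b w)
    (u : List (ℤ × List (Fin 3))) (h : (u.map fun p => p.1 • a p.2).sum = 0) :
    (u.map fun p => p.1 • b p.2).sum = 0 := by
  have h0 := congrArg f h
  rw [map_zero, map_list_sum, List.map_map] at h0
  rw [← h0]
  congr 1
  refine List.map_congr_left fun p _ => ?_
  rw [Function.comp_apply, map_zsmul, hab]

theorem gen (h : (u0.map fun p => p.1 • dW R p.2 (om R)).sum = 0) (c : Fin 3 → Fin 3 → L)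
    (ζ : Fin 2 → L) (Z : Submodule R L)
    (h1 : ∀ k m j : Fin 3, k ≠ m → k ≠ j → m ≠ j → ⁅c k j, c m j⁆ = 0)
    (h2 : ∀ i j k : Fin 3, i ≠ j → i ≠ k → j ≠ k → ⁅c i j + c k j, c i k⁆ = 0)
    (h3 : ∀ (k l : Fin 3) (m : Fin 2), k ≠ l → k ≠ m.castSucc → l ≠ m.castSucc →
      ⁅c k l, ζ m⁆ = 0)
    (h4 : ⁅c 0 1, ζ 0 + ζ 1⁆ ∈ Z) (h5 : ⁅c 1 0, ζ 0 + ζ 1⁆ ∈ Z)
    (h6 : ∀ k l : Fin 3, k ≠ l → ∀ a ∈ Z, ⁅c k l, a⁆ ∈ Z)
    (h7 : ∀ m : Fin 2, ∀ a ∈ Z, ⁅ζ m, a⁆ = 0) :
    (u0.map fun p => p.1 • adW (fun l => c (sk l) l) ⁅ζ 0, ζ 1⁆ p.2).sum = 0 := by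
  set X : Fin 3 → L := ![c 1 0 + c 2 0, c 0 1 + c 2 1, c 0 2 + c 1 2] with hXdef
  have hX : ∀ k l m : Fin 3, k ≠ l → k ≠ m → l ≠ m → X l = c k l + c m l := by
    have e0 : X 0 = c 1 0 + c 2 0 := rfl
    have e1 : X 1 = c 0 1 + c 2 1 := rfl
    have e2 : X 2 = c 0 2 + c 1 2 := rfl
    intro k l m a1 a2 a3
    have hk : k = 0 ∨ k = 1 ∨ k = 2 := by omega
    have hl : l = 0 ∨ l = 1 ∨ l = 2 := by omega
    have hm : m = 0 ∨ m = 1 ∨ m = 2 := by omega
    rcases hk with rfl | rfl | rfl <;> rcases hl with rfl | rfl | rfl <;>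
      rcases hm with rfl | rfl | rfl <;>
      first
        | exact absurd rfl a1
        | exact absurd rfl a2
        | exact absurd rfl a3
        | exact e0
        | exact e0.trans (add_comm _ _)
        | exact e1
        | exact e1.trans (add_comm _ _)
        | exact e2
        | exact e2.trans (add_comm _ _)
  have hZ : ∀ l, ∀ b ∈ Z, ⁅X l, b⁆ ∈ Z := by
    intro l b hb
    obtain ⟨k, m, a1, a2, a3⟩ : ∃ k m : Fin 3, k ≠ l ∧ k ≠ m ∧ l ≠ m := by
      revert l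
      decide
    rw [hX k l m a1 a2 a3, add_lie]
    exact Z.add_mem (h6 k l a1 b hb) (h6 m l a3.symm b hb)
  have hk : ∀ k l m : Fin 3, k ≠ l → k ≠ m → l ≠ m → ⁅c k l, X k⁆ = ⁅X l, X k⁆ := by
    intro k l m a1 a2 a3
    have e : ⁅c m l, X k⁆ = 0 := by
      rw [hX m k l a2.symm a3.symm a1, ← lie_skew, h2 m k l a2.symm a3.symm a1, neg_zero]
    rw [hX k l m a1 a2 a3, add_lie, e, add_zero]
  have hne : ∀ k l m : Fin 3, k ≠ l → k ≠ m → l ≠ m → ∀ m', m' ≠ k → ⁅c k l, X m'⁆ = 0 := by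
    intro k l m a1 a2 a3 m' hm'
    have : m' = l ∨ m' = m := by omega
    rcases this with rfl | rfl
    · rw [hX k m' m a1 a2 a3, lie_add, lie_self, h1 k m m' a2 a1 a3.symm, add_zero]
    · rw [hX k m' l a2 a1 a3.symm, ← lie_skew, h2 k m' l a2 a1 a3.symm, neg_zero]
  have hu : ∀ l : Fin 3, ∀ i : Fin 2, ⁅c (sk l) l, ζ i⁆ -
      aco (sk l) l i • ⁅X l, bco (sk l) 0 • ζ 0 + bco (sk l) 1 • ζ 1⁆ ∈ Z := by
    have b10 : bco 1 0 = 0 := by decide
    have b11 : bco 1 1 = 1 := by decide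
    have b00 : bco 0 0 = 1 := by decide
    have b01 : bco 0 1 = 0 := by decide
    intro l i
    have hl : l = 0 ∨ l = 1 ∨ l = 2 := by omega
    have hi : i = 0 ∨ i = 1 := by omega
    rcases hl with rfl | rfl | rfl
    · have s : sk 0 = 1 := rfl
      have eX : X 0 = c 1 0 + c 2 0 := rfl
      have e : ⁅X 0, ζ 1⁆ = ⁅c 1 0, ζ 1⁆ := by
        rw [eX, add_lie, h3 2 0 1 (by decide) (by decide) (by decide), add_zero]
      rw [s, b10, b11, zero_smul, one_smul, zero_add, e]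
      rcases hi with rfl | rfl
      · have a : aco 1 0 0 = -1 := by decide
        rw [a, neg_one_smul, sub_neg_eq_add, ← lie_add]
        exact h5
      · have a : aco 1 0 1 = 1 := by decide
        rw [a, one_smul, sub_self]
        exact Z.zero_mem
    · have s : sk 1 = 0 := rfl
      have eX : X 1 = c 0 1 + c 2 1 := rfl
      have e : ⁅X 1, ζ 0⁆ = ⁅c 0 1, ζ 0⁆ := by
        rw [eX, add_lie, h3 2 1 0 (by decide) (by decide) (by decide), add_zero]
      rw [s, b00, b01, zero_smul, one_smul, add_zero, e]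
      rcases hi with rfl | rfl
      · have a : aco 0 1 0 = 1 := by decide
        rw [a, one_smul, sub_self]
        exact Z.zero_mem
      · have a : aco 0 1 1 = -1 := by decide
        rw [a, neg_one_smul, sub_neg_eq_add, ← lie_add, add_comm (ζ 1)]
        exact h4
    · have s : sk 2 = 0 := rfl
      have eX : X 2 = c 0 2 + c 1 2 := rfl
      have e : ⁅X 2, ζ 0⁆ = ⁅c 0 2, ζ 0⁆ := by
        rw [eX, add_lie, h3 1 2 0 (by decide) (by decide) (by decide), add_zero]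
      rw [s, b00, b01, zero_smul, one_smul, add_zero, e]
      rcases hi with rfl | rfl
      · have a : aco 0 2 0 = 1 := by decide
        rw [a, one_smul, sub_self]
        exact Z.zero_mem
      · have a : aco 0 2 1 = 0 := by decide
        rw [a, zero_smul, sub_zero, h3 0 2 1 (by decide) (by decide) (by decide)]
        exact Z.zero_mem
  have h3x : ∀ l : Fin 3, ∃ m : Fin 3, sk l ≠ l ∧ sk l ≠ m ∧ l ≠ m := by decide
  have hD : ∀ (l : Fin 3) (m : M R), ⁅c (sk l) l, kap X ζ m⁆ - kap X ζ (D R (sk l) l m) ∈ Z := by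
    intro l m
    obtain ⟨m', a1, a2, a3⟩ := h3x l
    exact kap_D X ζ Z hZ (sk l) l (c (sk l) l) (hk _ _ m' a1 a2 a3) (hne _ _ m' a1 a2 a3) (hu l) m
  have hA : ∀ m : M R, ∀ b ∈ Z, ⁅kap X ζ m, b⁆ = 0 := fun m b hb => kap_ann X ζ Z hZ h7 m b hb
  have hz0 : kap X ζ (z R 0) = ζ 0 := by
    rw [kap_apply]
    have e0 : z R 0 0 = 1 := by
      change ((bco 0 0 : ℤ) : FA R) = 1
      rw [show bco 0 0 = 1 by decide, Int.cast_one]
    have e1 : z R 0 1 = 0 := by
      change ((bco 0 1 : ℤ) : FA R) = 0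
      rw [show bco 0 1 = 0 by decide, Int.cast_zero]
    rw [e0, e1, map_one, map_zero, Module.End.one_apply, LinearMap.zero_apply, add_zero]
  have hz1 : kap X ζ (z R 1) = ζ 1 := by
    rw [kap_apply]
    have e0 : z R 1 0 = 0 := by
      change ((bco 1 0 : ℤ) : FA R) = 0
      rw [show bco 1 0 = 0 by decide, Int.cast_zero]
    have e1 : z R 1 1 = 1 := by
      change ((bco 1 1 : ℤ) : FA R) = 1
      rw [show bco 1 1 = 1 by decide, Int.cast_one]
    rw [e0, e1, map_one, map_zero, Module.End.one_apply, LinearMap.zero_apply, zero_add]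
  have hw : ∀ w : List (Fin 3), dW R w (om R) ∈ Alt R ∧
      kt (kap X ζ) (dW R w (om R)) = adW (fun l => c (sk l) l) ⁅ζ 0, ζ 1⁆ w := by
    intro w
    induction w with
    | nil =>
      change om R ∈ Alt R ∧ kt (kap X ζ) (om R) = ⁅ζ 0, ζ 1⁆
      unfold om
      exact ⟨mem_Alt _ _, by rw [kt_alt, hz0, hz1]⟩
    | cons l w ih =>
      obtain ⟨i1, i2⟩ := ih
      have hs := step (kap X ζ) Z (sk l) l (c (sk l) l) (hD l) hA _ i1
      change D2 R (sk l) l (dW R w (om R)) ∈ Alt R ∧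
        kt (kap X ζ) (D2 R (sk l) l (dW R w (om R))) =
          ⁅c (sk l) l, adW (fun l => c (sk l) l) ⁅ζ 0, ζ 1⁆ w⁆
      rw [← i2]
      exact hs
  exact fin_sum (kt (kap X ζ)).toAddMonoidHom (fun w => dW R w (om R))
    (adW (fun l => c (sk l) l) ⁅ζ 0, ζ 1⁆) (fun w => (hw w).2) u0 h

end lie

/-- see above -/
theorem kappa (h : S_syz) : S_kappa := by
  intro L _ c ζ Z h1 h2 h3 h4 h5 h6 h7
  exact gen (R := ℤ) (h ℤ) c ζ (AddSubgroup.toIntSubmodule Z) h1 h2 h3 h4 h5 h6 h7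

end Pool.Agent.H927.QP.Part_kappa
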